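import Pool.Agent.L0h7.TW.Stm
import Pool.Agent.L0h33.RG.IND

/-!
# Project TW: induced modules, twisted (module TIN; helper33)
-/

set_option autoImplicit false
set_option linter.all false

noncomputable section

namespace Pool.Agent.L0h33.TW

open Pool.Agent.Y75.NK
open Pool.Agent.L0h7.RG
open Pool.Agent.L0h7.TW
open Pool.Agent.L0h33.RG (ind_induction ev ev_ext ev_ten mkf ev_mkf exists_supp imapA imapA_ten
  PD_equiv)

section ind

variable {A F : Type} [Ring A] [Group F] [MulSemiringAction F A]

/-- additive maps which are compatible with the action are linear -/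
def mkLin {N X : Type} [AddCommGroup N] [Module A N] [AddCommGroup X]
    [Module (SkewMonoidAlgebra A F) X] (f : Ind F N →+ X)
    (h : ∀ (u v : F) (a : A) (x : N), f (ten (u * v) (((u * v)⁻¹ • a) • x)) =
      (SkewMonoidAlgebra.single u a : SkewMonoidAlgebra A F) • f (ten v x)) :
    Ind F N →ₗ[SkewMonoidAlgebra A F] X where
  toFun := f
  map_add' := f.map_add
  map_smul' r z := by
    rw [RingHom.id_apply]
    induction r using SkewMonoidAlgebra.induction_on with
    | zero => rw [zero_smul, zero_smul, map_zero]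
    | add r s hr hs => rw [add_smul, map_add, hr, hs, add_smul]
    | single u a =>
      induction z using ind_induction with
      | h0 => rw [smul_zero, map_zero, smul_zero]
      | hadd y z hy hz => rw [smul_add, map_add, map_add, hy, hz, smul_add]
      | hten v x => rw [tsingle_smul_ten, h]

theorem mkLin_apply {N X : Type} [AddCommGroup N] [Module A N] [AddCommGroup X]
    [Module (SkewMonoidAlgebra A F) X] (f : Ind F N →+ X)
    (h : ∀ (u v : F) (a : A) (x : N), f (ten (u * v) (((u * v)⁻¹ • a) • x)) =
      (SkewMonoidAlgebra.single u a : SkewMonoidAlgebra A F) • f (ten v x)) (z : Ind F N) :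
    mkLin f h z = f z := rfl

/-- linear maps which agree on the elements `w ⊗ x` -/
theorem lin_ext {N X : Type} [AddCommGroup N] [Module A N] [AddCommGroup X]
    [Module (SkewMonoidAlgebra A F) X] {f g : Ind F N →ₗ[SkewMonoidAlgebra A F] X}
    (h : ∀ w x, f (ten w x) = g (ten w x)) : f = g := by
  apply LinearMap.ext
  intro z
  induction z using ind_induction with
  | h0 => rw [map_zero, map_zero]
  | hadd y z hy hz => rw [map_add, map_add, hy, hz]
  | hten v x => exact h v x

/-- the universal property -/
theorem ind4 (N : Type) [AddCommGroup N] [Module A N] (X : Type)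
    [AddCommGroup X] [Module (SkewMonoidAlgebra A F) X] (h : N →+ X)
    (hh : ∀ (a : A) (x : N), h (a • x) = tio A F a • h x) :
    ∃ g : Ind F N →ₗ[SkewMonoidAlgebra A F] X, ∀ (w : F) (x : N),
      g (ten w x) = (SkewMonoidAlgebra.single w 1 : SkewMonoidAlgebra A F) • h x := by
  let f : Ind F N →+ X := (Finsupp.liftAddHom (fun w : F =>
    (DistribSMul.toAddMonoidHom X
      (SkewMonoidAlgebra.single w 1 : SkewMonoidAlgebra A F)).comp h) : (F →₀ N) →+ X)
  have hf : ∀ (w : F) (x : N), f (ten w x) =
      (SkewMonoidAlgebra.single w 1 : SkewMonoidAlgebra A F) • h x := by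
    intro w x
    exact Finsupp.liftAddHom_apply_single _ _ _
  refine ⟨mkLin f ?_, fun w x => hf w x⟩
  intro u v a x
  rw [hf, hf, hh, smul_smul, smul_smul]
  congr 1
  change SkewMonoidAlgebra.single (u * v) 1 *
    SkewMonoidAlgebra.single 1 ((u * v)⁻¹ • a) = _
  rw [SkewMonoidAlgebra.single_mul_single, SkewMonoidAlgebra.single_mul_single, mul_one, one_mul,
    smul_inv_smul, smul_one, mul_one]

variable {N N' N'' : Type} [AddCommGroup N] [Module A N] [AddCommGroup N'] [Module A N']
  [AddCommGroup N''] [Module A N'']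

variable (F) in
/-- the induced map -/
def imap (f : N →ₗ[A] N') : Ind F N →ₗ[SkewMonoidAlgebra A F] Ind F N' :=
  mkLin (imapA F f) (by
    intro u v a x
    rw [imapA_ten, imapA_ten, map_smul, tsingle_smul_ten])

theorem ev_imap (f : N →ₗ[A] N') (z : Ind F N) (w : F) :
    ev w (imap F f z) = f (ev w z) := rfl

theorem imap_ten (f : N →ₗ[A] N') (w : F) (x : N) : imap F f (ten w x) = ten w (f x) :=
  imapA_ten f w x

theorem imap_comp (g : N' →ₗ[A] N'') (f : N →ₗ[A] N') :
    imap F (g.comp f) = (imap F g).comp (imap F f) := by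
  apply lin_ext
  intro w x
  rw [LinearMap.comp_apply, imap_ten, imap_ten, imap_ten, LinearMap.comp_apply]

theorem imap_id : imap F (LinearMap.id : N →ₗ[A] N) = LinearMap.id := by
  apply lin_ext
  intro w x
  rw [imap_ten]
  rfl

theorem imap_inj {f : N →ₗ[A] N'} (h : Function.Injective f) : Function.Injective (imap F f) := by
  intro z z' hz
  refine ev_ext fun w => ?_
  apply h
  rw [← ev_imap, ← ev_imap, hz]

theorem imap_surj {f : N →ₗ[A] N'} (h : Function.Surjective f) :
    Function.Surjective (imap F f) := by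
  intro z
  induction z using ind_induction with
  | h0 => exact ⟨0, map_zero _⟩
  | hadd y z hy hz =>
    obtain ⟨y', hy⟩ := hy
    obtain ⟨z', hz⟩ := hz
    refine ⟨y' + z', ?_⟩
    rw [map_add, hy, hz]
  | hten v x =>
    obtain ⟨y, rfl⟩ := h x
    exact ⟨ten v y, imap_ten f v y⟩

/-- the kernel of the induced map -/
theorem iker (f : N →ₗ[A] N') :
    Nonempty (LinearMap.ker (imap F f) ≃ₗ[SkewMonoidAlgebra A F] Ind F (LinearMap.ker f)) := by
  have h1 : LinearMap.range (imap F (LinearMap.ker f).subtype) = LinearMap.ker (imap F f) := by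
    ext z
    rw [LinearMap.mem_range, LinearMap.mem_ker]
    constructor
    · rintro ⟨y, rfl⟩
      rw [← LinearMap.comp_apply, ← imap_comp]
      have h2 : f.comp (LinearMap.ker f).subtype = 0 := by
        apply LinearMap.ext
        intro x
        exact x.2
      rw [h2]
      refine ev_ext fun w => ?_
      rw [ev_imap, map_zero]
      rfl
    · intro hz
      have hz' : ∀ w, f (ev w z) = 0 := by
        intro w
        rw [← ev_imap, hz, map_zero]
      obtain ⟨s, hs⟩ := exists_supp z
      refine ⟨mkf s (fun w => (⟨ev w z, hz' w⟩ : LinearMap.ker f)) ?_, ?_⟩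
      · intro w hw
        apply hs
        intro h0
        apply hw
        exact Subtype.ext h0
      · refine ev_ext fun w => ?_
        rw [ev_imap, ev_mkf]
        rfl
  exact ⟨((LinearEquiv.ofInjective _ (imap_inj (F := F)
    (Submodule.subtype_injective (LinearMap.ker f)))).trans (LinearEquiv.ofEq _ _ h1)).symm⟩

variable (A F) in
/-- coordinates -/
def psiA (k : ℕ) : Ind F (Fin k → A) →+ (Fin k → SkewMonoidAlgebra A F) :=
  Finsupp.liftAddHom (fun w : F => AddMonoidHom.mk'
    (fun x : Fin k → A => fun i => (SkewMonoidAlgebra.single w (w • x i) : SkewMonoidAlgebra A F))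
    (by
      intro x y
      funext i
      rw [Pi.add_apply, Pi.add_apply, smul_add]
      exact SkewMonoidAlgebra.single_add _ _ _))

theorem psiA_ten (k : ℕ) (w : F) (x : Fin k → A) :
    psiA A F k (ten w x) =
      fun i => (SkewMonoidAlgebra.single w (w • x i) : SkewMonoidAlgebra A F) :=
  Finsupp.liftAddHom_apply_single _ _ _

variable (A F) in
/-- coordinates -/
def psi (k : ℕ) : Ind F (Fin k → A) →ₗ[SkewMonoidAlgebra A F] (Fin k → SkewMonoidAlgebra A F) :=
  mkLin (psiA A F k) (by
    intro u v a x
    rw [psiA_ten, psiA_ten]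
    funext i
    change _ = SkewMonoidAlgebra.single u a * SkewMonoidAlgebra.single v (v • x i)
    rw [SkewMonoidAlgebra.single_mul_single]
    congr 1
    change (u * v) • (((u * v)⁻¹ • a) * x i) = _
    rw [smul_mul', smul_inv_smul, smul_smul])

theorem psi_ten (k : ℕ) (w : F) (x : Fin k → A) :
    psi A F k (ten w x) =
      fun i => (SkewMonoidAlgebra.single w (w • x i) : SkewMonoidAlgebra A F) :=
  psiA_ten k w x

theorem psi_coeff (k : ℕ) (z : Ind F (Fin k → A)) (i : Fin k) (w : F) :
    (psi A F k z i).coeff w = w • ev w z i := by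
  classical
  induction z using ind_induction with
  | h0 =>
    rw [map_zero, map_zero, Pi.zero_apply, Pi.zero_apply, smul_zero]
    rfl
  | hadd y z hy hz =>
    rw [map_add, map_add, Pi.add_apply, SkewMonoidAlgebra.coeff_add, Finsupp.add_apply, hy, hz,
      Pi.add_apply, smul_add]
  | hten v x =>
    rw [psi_ten, SkewMonoidAlgebra.coeff_single, Finsupp.single_apply, ev_ten]
    split_ifs with h
    · rw [h]
    · rw [Pi.zero_apply, smul_zero]

theorem psi_bij (k : ℕ) : Function.Bijective (psi A F k) := by
  classical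
  constructor
  · intro z z' h
    refine ev_ext fun w => ?_
    funext i
    have h1 := psi_coeff k z i w
    rw [h, psi_coeff] at h1
    exact (MulAction.injective w h1).symm
  · intro r
    refine ⟨mkf (Finset.univ.biUnion fun i => (r i).coeff.support)
      (fun w => fun i => w⁻¹ • (r i).coeff w) ?_, ?_⟩
    · intro w hw
      rw [Finset.mem_biUnion]
      by_contra hcon
      apply hw
      funext i
      by_contra h1
      refine hcon ⟨i, Finset.mem_univ i, Finsupp.mem_support_iff.mpr fun h2 => h1 ?_⟩
      change w⁻¹ • (r i).coeff w = 0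
      rw [h2, smul_zero]
    · funext i
      apply SkewMonoidAlgebra.ext
      intro w
      rw [psi_coeff, ev_mkf, smul_inv_smul]

variable (A F) in
/-- coordinates -/
def psiE (k : ℕ) : Ind F (Fin k → A) ≃ₗ[SkewMonoidAlgebra A F] (Fin k → SkewMonoidAlgebra A F) :=
  LinearEquiv.ofBijective (psi A F k) (psi_bij k)

/-- the resolution of the induced module -/
theorem step (k : ℕ) (π : (Fin k → A) →ₗ[A] N) (hπ : Function.Surjective π) :
    ∃ π' : (Fin k → SkewMonoidAlgebra A F) →ₗ[SkewMonoidAlgebra A F] Ind F N,
      Function.Surjective π' ∧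
      Nonempty (LinearMap.ker π' ≃ₗ[SkewMonoidAlgebra A F] Ind F (LinearMap.ker π)) := by
  refine ⟨(imap F π).comp (psiE A F k).symm.toLinearMap,
    (imap_surj hπ).comp (psiE A F k).symm.surjective, ?_⟩
  obtain ⟨α⟩ := iker (F := F) π
  have h1 : LinearMap.ker ((imap F π).comp (psiE A F k).symm.toLinearMap) =
      Submodule.map (psiE A F k).toLinearMap (LinearMap.ker (imap F π)) := by
    ext v
    rw [LinearMap.mem_ker, Submodule.mem_map]
    constructor
    · intro hv
      exact ⟨(psiE A F k).symm v, hv, (psiE A F k).apply_symm_apply v⟩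
    · rintro ⟨y, hy, rfl⟩
      change imap F π ((psiE A F k).symm (psiE A F k y)) = 0
      rw [LinearEquiv.symm_apply_apply]
      exact hy
  exact ⟨((LinearEquiv.ofEq _ _ h1).trans ((psiE A F k).submoduleMap _).symm).trans α⟩

end ind

theorem ind3 {A F : Type} [Ring A] [Group F] [MulSemiringAction F A] (N : Type)
    [AddCommGroup N] [Module A N]
    (h : Module.Finite A N) : Module.Finite (SkewMonoidAlgebra A F) (Ind F N) := by
  obtain ⟨k, π, hπ⟩ := Module.Finite.exists_fin' A N
  obtain ⟨π', h1, -⟩ := step (F := F) k π hπ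
  exact Module.Finite.of_surjective π' h1

theorem ind1 {A F : Type} [Ring A] [Group F] [MulSemiringAction F A] (n : ℕ) (N : Type)
    [AddCommGroup N] [Module A N]
    (h : PD A n N) : PD (SkewMonoidAlgebra A F) n (Ind F N) := by
  induction n generalizing N with
  | zero =>
    obtain ⟨h1, h2⟩ := h
    refine ⟨ind3 N h1, ?_⟩
    obtain ⟨k, π, hπ⟩ := Module.Finite.exists_fin' A N
    obtain ⟨s, hs⟩ := Module.projective_lifting_property π LinearMap.id hπ
    have h3 : Module.Projective (SkewMonoidAlgebra A F) (Ind F (Fin k → A)) :=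
      Module.Projective.of_equiv (psiE A F k).symm
    refine Module.Projective.of_split (imap F s) (imap F π) ?_
    rw [← imap_comp, hs, imap_id]
  | succ n ih =>
    obtain ⟨k, π, h1, h2⟩ := h
    obtain ⟨π', h3, ⟨α⟩⟩ := step (F := F) k π h1
    exact ⟨k, π', h3, PD_equiv α.symm (ih _ h2)⟩

/-- **TIN** -/
theorem t_TIN : S_TIN :=
  ⟨fun A F _ _ _ n N _ _ h => ind1 n N h, fun A F _ _ _ N _ _ h => ind3 N h,
    fun A F _ _ _ N _ _ X _ _ h hh => ind4 N X h hh⟩

end Pool.Agent.L0h33.TW
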